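import Pool.Agent.R14.MC.A
import Pool.Agent.R14.MC.B
import Pool.Agent.R14.MC.C
import Pool.Agent.R14.MC.H
import Pool.Agent.R14.MC.R
import Pool.Agent.R14.MC.I
import Pool.Agent.R14.MC.P
import Pool.Agent.R14.MC.N
import Pool.Agent.R14.MC.Imp
import Pool.Agent.R14.MC.Main

set_option autoImplicit false

namespace Pool.Agent.Results.MP_c6938d_co.MinimumFrequency

open R14.MC

/-- For every `d ≥ 3` there is `β > 0` such that some covering design with `d` blocks has frequency
at most `β`, and the scaled version of every covering design with `d` blocks and frequency at most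
`β` admits a multi-matching. -/
theorem result : ∀ d : ℕ, 3 ≤ d → ∃ β : ℝ, 0 < β ∧
    (∃ (v k : ℕ) (B : Fin d → Finset (Fin v)),
      2 ≤ v ∧ 2 ≤ k ∧ IsCov v k d B ∧ freq v k d ≤ β) ∧
    ∀ (v k : ℕ) (B : Fin d → Finset (Fin v)), 2 ≤ v → 2 ≤ k → IsCov v k d B → freq v k d ≤ β →
      MultiMatching (scaled B) :=
  R14.MC.Main.main R14.MC.A.main R14.MC.B.main R14.MC.C.main R14.MC.H.main
    (R14.MC.Imp.main R14.MC.I.main R14.MC.P.main R14.MC.N.main R14.MC.R.main)

end Pool.Agent.Results.MP_c6938d_co.MinimumFrequency
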